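import Pool.Agent.Helper66.HK.Stmts

set_option autoImplicit false

namespace Pool.Agent.Helper66.HK

open Finset Pool.Agent.Helper69.RK

/-! ### general lemmas -/

theorem cub_eq (h2 : ST_E2) {Ω α α' γ γ' : Type} [Fintype Ω] {μ : Ω → ℝ} (hμ : ∀ ω, 0 ≤ μ ω)
    (f : Ω → α) (f' : Ω → α') (g : Ω → γ) (g' : Ω → γ') (a : Dep μ g g') (b : Dep μ g' g)
    (c : Dep μ (fun ω => (f ω, g ω)) f') (d : Dep μ (fun ω => (f' ω, g ω)) f) :
    CH μ f g = CH μ f' g' := by
  have e1 : CH μ f g = CH μ f' g :=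
    le_antisymm (h2.1 Ω α α' γ μ f f' g hμ d) (h2.1 Ω α' α γ μ f' f g hμ c)
  have e2 : CH μ f' g = CH μ f' g' :=
    le_antisymm (h2.2.1 Ω α' γ' γ μ f' g' g hμ a) (h2.2.1 Ω α' γ γ' μ f' g g' hμ b)
  rw [e1, e2]

theorem cub_eqc (h2 : ST_E2) {Ω α γ γ' : Type} [Fintype Ω] {μ : Ω → ℝ} (hμ : ∀ ω, 0 ≤ μ ω)
    (f : Ω → α) (g : Ω → γ) (g' : Ω → γ') (a : Dep μ g g') (b : Dep μ g' g) :
    CH μ f g = CH μ f g' :=
  le_antisymm (h2.2.1 Ω α γ' γ μ f g' g hμ a) (h2.2.1 Ω α γ γ' μ f g g' hμ b)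

theorem cub_push {Ω Ω' Ω'' : Type} [Fintype Ω'] [Fintype Ω''] (f : Ω' → Ω) (g : Ω'' → Ω')
    (μ : Ω'' → ℝ) : push (fun w => f (g w)) μ = push f (push g μ) := by
  classical
  funext ω
  simp only [push]
  have : ∀ y : Ω', (if f y = ω then (∑ x : Ω'', if g x = y then μ x else 0) else 0) =
      ∑ x : Ω'', if g x = y then (if f (g x) = ω then μ x else 0) else 0 := by
    intro y
    split_ifs with h
    · refine Finset.sum_congr rfl fun x _ => ?_
      by_cases h1 : g x = y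
      · rw [if_pos h1, if_pos h1, if_pos (by rw [h1]; exact h)]
      · rw [if_neg h1, if_neg h1]
    · symm
      refine Finset.sum_eq_zero fun x _ => ?_
      split_ifs with h1 h2
      · exact absurd (h1 ▸ h2) h
      · rfl
      · rfl
  rw [Finset.sum_congr rfl fun y _ => this y, Finset.sum_comm]
  refine Finset.sum_congr rfl fun x _ => ?_
  rw [Finset.sum_ite_eq]
  simp

theorem cub_push_id {Ω : Type} [Fintype Ω] (μ : Ω → ℝ) : push (fun w : Ω => w) μ = μ := by
  classical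
  funext ω
  simp only [push]
  rw [Finset.sum_ite_eq' Finset.univ ω μ]
  simp

theorem cub_chain (h1 : ST_E1) {Ω α β γ : Type} [Fintype Ω] {μ : Ω → ℝ} (hμ : ∀ ω, 0 ≤ μ ω)
    (f : Ω → α) (h : Ω → β) (g : Ω → γ) :
    CH μ (fun ω => (f ω, h ω)) g = CH μ f g + CH μ h (fun ω => (f ω, g ω)) :=
  (h1 Ω α β γ μ f h g hμ).2.1

/-- the first marginal -/
theorem cub_fst (h5 : ST_E5) (h7 : ST_E7) {Ω α β γ : Type} [Fintype Ω] {μ : Ω → ℝ}
    (hμ : ∀ ω, 0 ≤ μ ω) (G : Ω → γ) (f : Ω → α) (g : Ω → β) :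
    CH (cop2 μ G) (fun w => f w.1) (fun w => g w.1) = CH μ f g := by
  have e := h7 Ω γ μ G hμ
  have := (h5.1 Ω (Ω × Ω) α β (cop2 μ G) Prod.fst f g e.1).2.2
  rw [e.2.2.2.1] at this
  exact this.symm

theorem cub_snd (h5 : ST_E5) (h7 : ST_E7) {Ω α β γ : Type} [Fintype Ω] {μ : Ω → ℝ}
    (hμ : ∀ ω, 0 ≤ μ ω) (G : Ω → γ) (f : Ω → α) (g : Ω → β) :
    CH (cop2 μ G) (fun w => f w.2) (fun w => g w.2) = CH μ f g := by
  have e := h7 Ω γ μ G hμ
  have := (h5.1 Ω (Ω × Ω) α β (cop2 μ G) Prod.snd f g e.1).2.2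
  rw [e.2.2.2.2.1] at this
  exact this.symm

theorem cub_swap (h5 : ST_E5) (h7 : ST_E7) {Ω α β γ : Type} [Fintype Ω] {μ : Ω → ℝ}
    (hμ : ∀ ω, 0 ≤ μ ω) (G : Ω → γ) (f : Ω × Ω → α) (g : Ω × Ω → β) :
    CH (cop2 μ G) (fun w => f (w.2, w.1)) (fun w => g (w.2, w.1)) = CH (cop2 μ G) f g := by
  classical
  have e := h7 Ω γ μ G hμ
  have hp : push (fun w : Ω × Ω => (w.2, w.1)) (cop2 μ G) = cop2 μ G := by
    funext w
    simp only [push]
    rw [Finset.sum_eq_single (w.2, w.1)]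
    · rw [if_pos rfl]
      exact (e.2.2.1 w).symm
    · intro b _ hb
      rw [if_neg]
      intro h
      apply hb
      rw [← h]
    · intro h
      exact absurd (Finset.mem_univ _) h
  have := (h5.1 (Ω × Ω) (Ω × Ω) α β (cop2 μ G) (fun w : Ω × Ω => (w.2, w.1)) f g e.1).2.2
  rw [hp] at this
  exact this.symm

/-- conditional independence of the copies, with a condition that determines `G` -/
theorem cub_ind (h1 : ST_E1) (h2 : ST_E2) (h7 : ST_E7) {Ω α β δ γ : Type}
    [Fintype Ω] {μ : Ω → ℝ} (hμ : ∀ ω, 0 ≤ μ ω) (G : Ω → γ) (F : Ω → α) (h : Ω → β) (K : Ω → δ)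
    (hK : Dep μ K G) :
    CH (cop2 μ G) (fun w => F w.1) (fun w => (h w.2, K w.1)) = CH μ F K := by
  have e := h7 Ω γ μ G hμ
  have c1 := cub_chain h1 e.1 (fun w : Ω × Ω => K w.1) (fun w => F w.1)
    (fun w => (h w.2, G w.1))
  have c2 := cub_chain h1 hμ K F G
  have a1 := e.2.2.2.2.2 (δ × α) β (fun ω => (K ω, F ω)) h
  have a2 := e.2.2.2.2.2 δ β K h
  have b1 : CH (cop2 μ G) (fun w => F w.1) (fun w => (K w.1, (h w.2, G w.1))) =
      CH (cop2 μ G) (fun w => F w.1) (fun w => (h w.2, K w.1)) := by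
    apply cub_eqc h2 e.1
    · intro w w' _ _ hw
      simp only [Prod.mk.injEq] at hw ⊢
      exact ⟨hw.2.1, hw.1⟩
    · intro w w' h0 h0' hw
      simp only [Prod.mk.injEq] at hw ⊢
      exact ⟨hw.2, hw.1, hK _ _ (e.2.1 w h0).2.1 (e.2.1 w' h0').2.1 hw.2⟩
  have b2 : CH μ F (fun ω => (K ω, G ω)) = CH μ F K := by
    apply cub_eqc h2 hμ
    · intro w w' _ _ hw
      simp only [Prod.mk.injEq] at hw
      exact hw.1
    · intro w w' h0 h0' hw
      simp only [Prod.mk.injEq]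
      exact ⟨hw, hK _ _ h0 h0' hw⟩
  linarith

theorem cub_ind' (h1 : ST_E1) (h2 : ST_E2) (h5 : ST_E5) (h7 : ST_E7) {Ω α β δ γ : Type}
    [Fintype Ω] {μ : Ω → ℝ} (hμ : ∀ ω, 0 ≤ μ ω) (G : Ω → γ) (F : Ω → α) (h : Ω → β) (K : Ω → δ)
    (hK : Dep μ K G) :
    CH (cop2 μ G) (fun w => F w.2) (fun w => (h w.1, K w.2)) = CH μ F K := by
  rw [← cub_ind h1 h2 h7 hμ G F h K hK]
  exact cub_swap h5 h7 hμ G (fun w => F w.1) (fun w => (h w.2, K w.1))

/-! ### subsets of `Fin (L + 1)` -/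

/-- the part below the last index -/
def cub_rs {L : ℕ} (S : Finset (Fin (L + 1))) : Finset (Fin L) :=
  univ.filter (fun i => i.castSucc ∈ S)

theorem cub_mem_rs {L : ℕ} (S : Finset (Fin (L + 1))) (i : Fin L) :
    i ∈ cub_rs S ↔ i.castSucc ∈ S := by
  simp [cub_rs]

theorem cub_rs_empty {L : ℕ} : cub_rs (∅ : Finset (Fin (L + 1))) = ∅ := by
  ext i
  simp [cub_mem_rs]

theorem cub_rs_cast {L : ℕ} (j : Fin L) : cub_rs ({j.castSucc} : Finset (Fin (L + 1))) = {j} := by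
  ext i
  simp [cub_mem_rs]

theorem cub_rs_last {L : ℕ} : cub_rs ({Fin.last L} : Finset (Fin (L + 1))) = ∅ := by
  ext i
  simp [cub_mem_rs, Fin.castSucc_ne_last]

theorem cub_ext {L : ℕ} {S S' : Finset (Fin (L + 1))} (h : Fin.last L ∈ S ↔ Fin.last L ∈ S')
    (h' : cub_rs S = cub_rs S') : S = S' := by
  ext i
  refine Fin.lastCases ?_ (fun j => ?_) i
  · exact h
  · rw [← cub_mem_rs, ← cub_mem_rs, h']

/-- the lift that does not contain the last index -/
def cub_lo {L : ℕ} (T : Finset (Fin L)) : Finset (Fin (L + 1)) := T.map Fin.castSuccEmb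

/-- the lift that contains the last index -/
def cub_hi {L : ℕ} (T : Finset (Fin L)) : Finset (Fin (L + 1)) := insert (Fin.last L) (cub_lo T)

theorem cub_last_lo {L : ℕ} (T : Finset (Fin L)) : Fin.last L ∉ cub_lo T := by
  simp [cub_lo, Fin.castSucc_ne_last]

theorem cub_last_hi {L : ℕ} (T : Finset (Fin L)) : Fin.last L ∈ cub_hi T := by
  simp [cub_hi]

theorem cub_rs_lo {L : ℕ} (T : Finset (Fin L)) : cub_rs (cub_lo T) = T := by
  ext i
  simp [cub_mem_rs, cub_lo]

theorem cub_rs_hi {L : ℕ} (T : Finset (Fin L)) : cub_rs (cub_hi T) = T := by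
  ext i
  simp [cub_mem_rs, cub_hi, cub_lo, Fin.castSucc_ne_last]

theorem cub_sum {L : ℕ} (S : Finset (Fin (L + 1))) (F : Fin (L + 1) → ℤ) :
    ∑ i ∈ S, F i = ∑ j ∈ cub_rs S, F j.castSucc + if Fin.last L ∈ S then F (Fin.last L) else 0 := by
  classical
  have e : ∑ i ∈ S, F i = ∑ i, if i ∈ S then F i else 0 := by
    rw [Finset.sum_ite_mem, Finset.univ_inter]
  have e' : ∑ j ∈ cub_rs S, F j.castSucc =
      ∑ j : Fin L, if j.castSucc ∈ S then F j.castSucc else 0 := by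
    rw [← Finset.sum_filter]
    rfl
  rw [e, e', Fin.sum_univ_castSucc]

/-! ### the induction -/

open Classical in
/-- the induction hypothesis -/
structure CubH {Ω ζ : Type} [Fintype Ω] (μ : Ω → ℝ) (z : Ω → ζ) (τ : Ω → ℤ) (N L : ℕ) {Ω' : Type}
    [Fintype Ω'] (μ' : Ω' → ℝ) (κ : Finset (Fin L) → Ω' → Ω) : Prop where
  nn : ∀ w, 0 ≤ μ' w
  pu : ∀ S, push (κ S) μ' = μ
  su : ∀ w, μ' w ≠ 0 → ∀ S, μ (κ S w) ≠ 0 ∧ z (κ S w) = z (κ ∅ w) ∧
        τ (κ S w) / (N : ℤ) = τ (κ ∅ w) / (N : ℤ) ∧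
        τ (κ S w) - τ (κ ∅ w) = ∑ i ∈ S, (τ (κ {i} w) - τ (κ ∅ w))
  ind : ∀ (α β : Type) (f : Ω → α) (g : Ω → β), Dep μ g (fun ω => (z ω, τ ω)) → ∀ S,
        CH μ' (fun w => f (κ S w))
          (fun w => ((fun S' => if S' = S then none else some (f (κ S' w))), (fun S' => g (κ S' w)))) =
          CH μ f g
  mi : ∀ (β δ : Type) (z0 : Ω → β) (d : Ω → δ), Dep μ z z0 → Dep μ d τ →
        MI μ' (fun w => z (κ ∅ w)) (fun w S => d (κ S w)) (fun w => z0 (κ ∅ w)) ≤ 2 ^ L * MI μ z d z0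
  st : ∀ E : ℝ, 0 ≤ E → Real.logb 2 N - E ≤ CH μ τ (fun ω => (τ ω / (N : ℤ), z ω)) → ∀ i,
        Real.logb 2 N - 2 ^ L * (E + 1) ≤
          CH μ' (fun w => τ (κ {i} w) - τ (κ ∅ w)) (fun w => z (κ ∅ w))
  cl : ∀ E : ℝ, 0 ≤ E → Real.logb 2 N - E ≤ CH μ τ (fun ω => (τ ω / (N : ℤ), z ω)) →
        Real.logb 2 N - (2 ^ L * (E + 1) - 1) ≤
          CH μ' (fun w => τ (κ ∅ w))
            (fun w => (z (κ ∅ w), τ (κ ∅ w) / (N : ℤ), fun i => τ (κ {i} w) - τ (κ ∅ w)))

theorem cub_zero (h2 : ST_E2) {Ω ζ : Type} [Fintype Ω] (μ : Ω → ℝ) (z : Ω → ζ)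
    (τ : Ω → ℤ) (N : ℕ) (hμ : ∀ ω, 0 ≤ μ ω) : CubH μ z τ N 0 μ (fun _ w => w) := by
  classical
  have hS : ∀ S : Finset (Fin 0), S = ∅ := fun S => Subsingleton.elim _ _
  refine ⟨hμ, fun S => cub_push_id μ, ?_, ?_, ?_, fun E _ _ i => Fin.elim0 i, ?_⟩
  · intro w hw S
    refine ⟨hw, rfl, rfl, ?_⟩
    rw [hS S]
    simp
  · intro α β f g _ S
    apply cub_eqc h2 hμ
    · intro w w' _ _ hw
      simp only [Prod.mk.injEq] at hw
      exact congrFun hw.2 ∅
    · intro w w' _ _ hw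
      simp only [Prod.mk.injEq]
      refine ⟨?_, ?_⟩
      · funext S'
        have : S' = S := by rw [hS S', hS S]
        simp [this]
      · funext S'
        exact hw
  · intro β δ z0 d _ _
    have : MI μ z (fun w (_ : Finset (Fin 0)) => d w) z0 = MI μ z d z0 := by
      unfold MI
      congr 1
      apply cub_eqc h2 hμ
      · intro w w' _ _ hw
        simp only [Prod.mk.injEq] at hw ⊢
        exact ⟨congrFun hw.1 ∅, hw.2⟩
      · intro w w' _ _ hw
        simp only [Prod.mk.injEq] at hw ⊢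
        exact ⟨by funext S'; exact hw.1, hw.2⟩
    rw [this]
    simp
  · intro E _ hE
    have : CH μ τ (fun w => (z w, τ w / (N : ℤ), fun i : Fin 0 => τ w - τ w)) =
        CH μ τ (fun ω => (τ ω / (N : ℤ), z ω)) := by
      apply cub_eqc h2 hμ
      · intro w w' _ _ hw
        simp only [Prod.mk.injEq] at hw ⊢
        exact ⟨hw.2.1, hw.1⟩
      · intro w w' _ _ hw
        simp only [Prod.mk.injEq] at hw ⊢
        exact ⟨hw.2, hw.1, by funext i; exact Fin.elim0 i⟩
    rw [this]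
    simp only [pow_zero]
    linarith

/-- the data of both copies -/
def cub_k {Ω Ω' : Type} {L : ℕ} (κ : Finset (Fin L) → Ω' → Ω) :
    Finset (Fin (L + 1)) → Ω' × Ω' → Ω :=
  fun S w => if Fin.last L ∈ S then κ (cub_rs S) w.2 else κ (cub_rs S) w.1

theorem cub_k_neg {Ω Ω' : Type} {L : ℕ} (κ : Finset (Fin L) → Ω' → Ω) (S : Finset (Fin (L + 1)))
    (w : Ω' × Ω') (h : Fin.last L ∉ S) : cub_k κ S w = κ (cub_rs S) w.1 := if_neg h

theorem cub_k_pos {Ω Ω' : Type} {L : ℕ} (κ : Finset (Fin L) → Ω' → Ω) (S : Finset (Fin (L + 1)))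
    (w : Ω' × Ω') (h : Fin.last L ∈ S) : cub_k κ S w = κ (cub_rs S) w.2 := if_pos h

theorem cub_k_empty {Ω Ω' : Type} {L : ℕ} (κ : Finset (Fin L) → Ω' → Ω) (w : Ω' × Ω') :
    cub_k κ ∅ w = κ ∅ w.1 := by
  rw [cub_k_neg κ ∅ w (Finset.notMem_empty _), cub_rs_empty]

theorem cub_k_cast {Ω Ω' : Type} {L : ℕ} (κ : Finset (Fin L) → Ω' → Ω) (j : Fin L) (w : Ω' × Ω') :
    cub_k κ {j.castSucc} w = κ {j} w.1 := by
  rw [cub_k_neg κ _ w, cub_rs_cast]
  simp [(Fin.castSucc_ne_last j).symm]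

theorem cub_k_last {Ω Ω' : Type} {L : ℕ} (κ : Finset (Fin L) → Ω' → Ω) (w : Ω' × Ω') :
    cub_k κ {Fin.last L} w = κ ∅ w.2 := by
  rw [cub_k_pos κ _ w (Finset.mem_singleton_self _), cub_rs_last]

theorem cub_k_lo {Ω Ω' : Type} {L : ℕ} (κ : Finset (Fin L) → Ω' → Ω) (T : Finset (Fin L))
    (w : Ω' × Ω') : cub_k κ (cub_lo T) w = κ T w.1 := by
  rw [cub_k_neg κ _ w (cub_last_lo T), cub_rs_lo]

theorem cub_k_hi {Ω Ω' : Type} {L : ℕ} (κ : Finset (Fin L) → Ω' → Ω) (T : Finset (Fin L))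
    (w : Ω' × Ω') : cub_k κ (cub_hi T) w = κ T w.2 := by
  rw [cub_k_pos κ _ w (cub_last_hi T), cub_rs_hi]

/-- the common data -/
def cub_G {Ω Ω' ζ : Type} {L : ℕ} (z : Ω → ζ) (τ : Ω → ℤ) (N : ℕ)
    (κ : Finset (Fin L) → Ω' → Ω) : Ω' → ζ × ℤ × (Fin L → ℤ) :=
  fun v => (z (κ ∅ v), τ (κ ∅ v) / (N : ℤ), fun i => τ (κ {i} v) - τ (κ ∅ v))

theorem cub_step (h1 : ST_E1) (h2 : ST_E2) (h5 : ST_E5) (h7 : ST_E7) (h3 : ST_E3) {Ω ζ : Type}
    [Fintype Ω] (μ : Ω → ℝ) (z : Ω → ζ) (τ : Ω → ℤ) (N L : ℕ) (hμ : ∀ ω, 0 ≤ μ ω)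
    (hm : mass μ = 1) (hN : 1 ≤ N) {Ω' : Type} [Fintype Ω'] (μ' : Ω' → ℝ)
    (κ : Finset (Fin L) → Ω' → Ω) (H : CubH μ z τ N L μ' κ) :
    CubH μ z τ N (L + 1) (cop2 μ' (cub_G z τ N κ)) (cub_k κ) := by
  classical
  have e := h7 Ω' _ μ' (cub_G z τ N κ) H.nn
  -- equalities on the support
  have hz : ∀ w, cop2 μ' (cub_G z τ N κ) w ≠ 0 → z (κ ∅ w.2) = z (κ ∅ w.1) ∧
      τ (κ ∅ w.2) / (N : ℤ) = τ (κ ∅ w.1) / (N : ℤ) ∧
      ∀ i, τ (κ {i} w.2) - τ (κ ∅ w.2) = τ (κ {i} w.1) - τ (κ ∅ w.1) := by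
    intro w hw
    have := (e.2.1 w hw).1
    simp only [cub_G, Prod.mk.injEq] at this
    exact ⟨this.1.symm, this.2.1.symm, fun i => (congrFun this.2.2 i).symm⟩
  have hs1 : ∀ w, cop2 μ' (cub_G z τ N κ) w ≠ 0 → μ' w.1 ≠ 0 := fun w hw => (e.2.1 w hw).2.1
  have hs2 : ∀ w, cop2 μ' (cub_G z τ N κ) w ≠ 0 → μ' w.2 ≠ 0 := fun w hw => (e.2.1 w hw).2.2
  -- data that determine `τ` and `z` at all vertices determine the common data
  have hG : ∀ (β : Type) (g : Ω → β), Dep μ g (fun ω => (z ω, τ ω)) → ∀ v v', μ' v ≠ 0 →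
      μ' v' ≠ 0 → (∀ T, g (κ T v) = g (κ T v')) → cub_G z τ N κ v = cub_G z τ N κ v' := by
    intro β g hg v v' hv hv' h
    have key : ∀ T, z (κ T v) = z (κ T v') ∧ τ (κ T v) = τ (κ T v') := by
      intro T
      have := hg (κ T v) (κ T v') (H.su v hv T).1 (H.su v' hv' T).1 (h T)
      simpa only [Prod.mk.injEq] using this
    simp only [cub_G, Prod.mk.injEq]
    refine ⟨(key ∅).1, by rw [(key ∅).2], ?_⟩
    funext i
    rw [(key ∅).2, (key {i}).2]
  refine ⟨e.1, ?_, ?_, ?_, ?_, ?_, ?_⟩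
  · -- push
    intro S
    by_cases hS : Fin.last L ∈ S
    · have : cub_k κ S = fun w : Ω' × Ω' => κ (cub_rs S) (Prod.snd w) := by
        funext w
        exact cub_k_pos κ S w hS
      rw [this, cub_push (κ (cub_rs S)) Prod.snd, e.2.2.2.2.1, H.pu]
    · have : cub_k κ S = fun w : Ω' × Ω' => κ (cub_rs S) (Prod.fst w) := by
        funext w
        exact cub_k_neg κ S w hS
      rw [this, cub_push (κ (cub_rs S)) Prod.fst, e.2.2.2.1, H.pu]
  · -- support
    intro w hw S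
    obtain ⟨z1, z2, z3⟩ := hz w hw
    have hsum : ∑ i ∈ S, (τ (cub_k κ {i} w) - τ (cub_k κ ∅ w)) =
        ∑ j ∈ cub_rs S, (τ (κ {j} w.1) - τ (κ ∅ w.1)) +
          if Fin.last L ∈ S then τ (κ ∅ w.2) - τ (κ ∅ w.1) else 0 := by
      rw [cub_sum]
      simp only [cub_k_cast, cub_k_empty, cub_k_last]
    by_cases hS : Fin.last L ∈ S
    · obtain ⟨a1, a2, a3, a4⟩ := H.su w.2 (hs2 w hw) (cub_rs S)
      rw [cub_k_pos κ S w hS, cub_k_empty]
      refine ⟨a1, a2.trans z1, a3.trans z2, ?_⟩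
      rw [cub_k_empty, if_pos hS] at hsum
      rw [hsum]
      have : ∑ j ∈ cub_rs S, (τ (κ {j} w.1) - τ (κ ∅ w.1)) =
          ∑ j ∈ cub_rs S, (τ (κ {j} w.2) - τ (κ ∅ w.2)) :=
        Finset.sum_congr rfl fun j _ => (z3 j).symm
      rw [this, ← a4]
      ring
    · obtain ⟨a1, a2, a3, a4⟩ := H.su w.1 (hs1 w hw) (cub_rs S)
      rw [cub_k_neg κ S w hS, cub_k_empty]
      refine ⟨a1, a2, a3, ?_⟩
      rw [cub_k_empty, if_neg hS, add_zero] at hsum
      rw [hsum, a4]
  · -- conditional independence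
    intro α β f g hg S
    by_cases hS : Fin.last L ∈ S
    · have i1 := cub_ind' h1 h2 h5 h7 H.nn (cub_G z τ N κ) (fun v => f (κ (cub_rs S) v))
        (fun v => ((fun T => f (κ T v)), (fun T => g (κ T v))))
        (fun v => ((fun T => if T = cub_rs S then none else some (f (κ T v))),
          (fun T => g (κ T v)))) (by
          intro v v' hv hv' h
          simp only [Prod.mk.injEq] at h
          exact hG β g hg v v' hv hv' (fun T => congrFun h.2 T))
      rw [← H.ind α β f g hg (cub_rs S), ← i1]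
      have hf : (fun w => f (cub_k κ S w)) = fun w : Ω' × Ω' => f (κ (cub_rs S) w.2) := by
        funext w
        rw [cub_k_pos κ S w hS]
      rw [hf]
      apply cub_eqc h2 e.1
      · intro w w' _ _ h
        simp only [Prod.mk.injEq] at h ⊢
        obtain ⟨ha, hb⟩ := h
        refine ⟨⟨?_, ?_⟩, ?_, ?_⟩
        · funext T
          have := congrFun ha (cub_lo T)
          have hne : cub_lo T ≠ S := fun h0 => cub_last_lo T (h0 ▸ hS)
          simp only [if_neg hne, cub_k_lo, Option.some.injEq] at this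
          exact this
        · funext T
          have := congrFun hb (cub_lo T)
          simpa only [cub_k_lo] using this
        · funext T
          have := congrFun ha (cub_hi T)
          by_cases hT : T = cub_rs S
          · simp [hT]
          · have hne : cub_hi T ≠ S := fun h0 => hT (by rw [← h0, cub_rs_hi])
            simp only [if_neg hne, cub_k_hi, Option.some.injEq] at this
            simp [hT, this]
        · funext T
          have := congrFun hb (cub_hi T)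
          simpa only [cub_k_hi] using this
      · intro w w' _ _ h
        simp only [Prod.mk.injEq] at h ⊢
        obtain ⟨⟨ha, hb⟩, hc, hd⟩ := h
        refine ⟨?_, ?_⟩
        · funext S'
          by_cases hS' : Fin.last L ∈ S'
          · rw [cub_k_pos κ S' w hS', cub_k_pos κ S' w' hS']
            have := congrFun hc (cub_rs S')
            have hiff : S' = S ↔ cub_rs S' = cub_rs S :=
              ⟨fun h => by rw [h], fun h => cub_ext (by simp [hS, hS']) h⟩
            simp only [hiff]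
            exact this
          · rw [cub_k_neg κ S' w hS', cub_k_neg κ S' w' hS']
            have hne : S' ≠ S := fun h0 => hS' (h0 ▸ hS)
            rw [if_neg hne, if_neg hne, congrFun ha (cub_rs S')]
        · funext S'
          by_cases hS' : Fin.last L ∈ S'
          · rw [cub_k_pos κ S' w hS', cub_k_pos κ S' w' hS', congrFun hd (cub_rs S')]
          · rw [cub_k_neg κ S' w hS', cub_k_neg κ S' w' hS', congrFun hb (cub_rs S')]
    · have i1 := cub_ind h1 h2 h7 H.nn (cub_G z τ N κ) (fun v => f (κ (cub_rs S) v))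
        (fun v => ((fun T => f (κ T v)), (fun T => g (κ T v))))
        (fun v => ((fun T => if T = cub_rs S then none else some (f (κ T v))),
          (fun T => g (κ T v)))) (by
          intro v v' hv hv' h
          simp only [Prod.mk.injEq] at h
          exact hG β g hg v v' hv hv' (fun T => congrFun h.2 T))
      rw [← H.ind α β f g hg (cub_rs S), ← i1]
      have hf : (fun w => f (cub_k κ S w)) = fun w : Ω' × Ω' => f (κ (cub_rs S) w.1) := by
        funext w
        rw [cub_k_neg κ S w hS]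
      rw [hf]
      apply cub_eqc h2 e.1
      · intro w w' _ _ h
        simp only [Prod.mk.injEq] at h ⊢
        obtain ⟨ha, hb⟩ := h
        refine ⟨⟨?_, ?_⟩, ?_, ?_⟩
        · funext T
          have := congrFun ha (cub_hi T)
          have hne : cub_hi T ≠ S := fun h0 => hS (h0 ▸ cub_last_hi T)
          simp only [if_neg hne, cub_k_hi, Option.some.injEq] at this
          exact this
        · funext T
          have := congrFun hb (cub_hi T)
          simpa only [cub_k_hi] using this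
        · funext T
          have := congrFun ha (cub_lo T)
          by_cases hT : T = cub_rs S
          · simp [hT]
          · have hne : cub_lo T ≠ S := fun h0 => hT (by rw [← h0, cub_rs_lo])
            simp only [if_neg hne, cub_k_lo, Option.some.injEq] at this
            simp [hT, this]
        · funext T
          have := congrFun hb (cub_lo T)
          simpa only [cub_k_lo] using this
      · intro w w' _ _ h
        simp only [Prod.mk.injEq] at h ⊢
        obtain ⟨⟨ha, hb⟩, hc, hd⟩ := h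
        refine ⟨?_, ?_⟩
        · funext S'
          by_cases hS' : Fin.last L ∈ S'
          · rw [cub_k_pos κ S' w hS', cub_k_pos κ S' w' hS']
            have hne : S' ≠ S := fun h0 => hS (h0 ▸ hS')
            rw [if_neg hne, if_neg hne, congrFun ha (cub_rs S')]
          · rw [cub_k_neg κ S' w hS', cub_k_neg κ S' w' hS']
            have := congrFun hc (cub_rs S')
            have hiff : S' = S ↔ cub_rs S' = cub_rs S :=
              ⟨fun h => by rw [h], fun h => cub_ext (by simp [hS, hS']) h⟩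
            simp only [hiff]
            exact this
        · funext S'
          by_cases hS' : Fin.last L ∈ S'
          · rw [cub_k_pos κ S' w hS', cub_k_pos κ S' w' hS', congrFun hb (cub_rs S')]
          · rw [cub_k_neg κ S' w hS', cub_k_neg κ S' w' hS', congrFun hd (cub_rs S')]
  · -- mutual information
    intro β δ z0 d hz0 hd
    have IH := H.mi β δ z0 d hz0 hd
    unfold MI at IH ⊢
    simp only [cub_k_empty]
    -- `τ` at all vertices is a function of the data `d` at all vertices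
    have hdt : ∀ v v', μ' v ≠ 0 → μ' v' ≠ 0 → (fun T => d (κ T v)) = (fun T => d (κ T v')) →
        ∀ T, τ (κ T v) = τ (κ T v') := by
      intro v v' hv hv' h T
      exact hd (κ T v) (κ T v') (H.su v hv T).1 (H.su v' hv' T).1 (congrFun h T)
    have hz0' : ∀ v v', μ' v ≠ 0 → μ' v' ≠ 0 → z (κ ∅ v) = z (κ ∅ v') →
        z0 (κ ∅ v) = z0 (κ ∅ v') := by
      intro v v' hv hv' h
      exact hz0 (κ ∅ v) (κ ∅ v') (H.su v hv ∅).1 (H.su v' hv' ∅).1 h
    have A1 : CH (cop2 μ' (cub_G z τ N κ)) (fun w => z (κ ∅ w.1)) (fun w => z0 (κ ∅ w.1)) =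
        CH μ' (fun v => z (κ ∅ v)) (fun v => z0 (κ ∅ v)) :=
      cub_fst h5 h7 H.nn _ (fun v => z (κ ∅ v)) (fun v => z0 (κ ∅ v))
    have A2 : CH (cop2 μ' (cub_G z τ N κ)) (fun w => z (κ ∅ w.1))
        (fun w => ((fun S => d (cub_k κ S w)), z0 (κ ∅ w.1))) =
        CH (cop2 μ' (cub_G z τ N κ)) (fun w => z (κ ∅ w.1))
          (fun w => ((fun T => d (κ T w.2)), ((fun T => d (κ T w.1)), z0 (κ ∅ w.1)))) := by
      apply cub_eqc h2 e.1
      · intro w w' _ _ h
        simp only [Prod.mk.injEq] at h ⊢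
        refine ⟨?_, ?_, h.2⟩
        · funext T
          simpa only [cub_k_hi] using congrFun h.1 (cub_hi T)
        · funext T
          simpa only [cub_k_lo] using congrFun h.1 (cub_lo T)
      · intro w w' _ _ h
        simp only [Prod.mk.injEq] at h ⊢
        refine ⟨?_, h.2.2⟩
        funext S
        by_cases hS : Fin.last L ∈ S
        · rw [cub_k_pos κ S w hS, cub_k_pos κ S w' hS]
          exact congrFun h.1 (cub_rs S)
        · rw [cub_k_neg κ S w hS, cub_k_neg κ S w' hS]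
          exact congrFun h.2.1 (cub_rs S)
    have C1 := cub_chain h1 e.1 (fun w : Ω' × Ω' => z (κ ∅ w.1))
      (fun w => (fun T => d (κ T w.2))) (fun w => ((fun T => d (κ T w.1)), z0 (κ ∅ w.1)))
    have C2 := cub_chain h1 e.1 (fun w : Ω' × Ω' => (fun T => d (κ T w.2)))
      (fun w => z (κ ∅ w.1)) (fun w => ((fun T => d (κ T w.1)), z0 (κ ∅ w.1)))
    have C3 : CH (cop2 μ' (cub_G z τ N κ)) (fun w => (z (κ ∅ w.1), (fun T => d (κ T w.2))))
        (fun w => ((fun T => d (κ T w.1)), z0 (κ ∅ w.1))) =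
        CH (cop2 μ' (cub_G z τ N κ)) (fun w => ((fun T => d (κ T w.2)), z (κ ∅ w.1)))
        (fun w => ((fun T => d (κ T w.1)), z0 (κ ∅ w.1))) := by
      apply cub_eq h2 e.1
      · intro w w' _ _ h
        exact h
      · intro w w' _ _ h
        exact h
      · intro w w' _ _ h
        simp only [Prod.mk.injEq] at h ⊢
        exact ⟨h.1.2, h.1.1⟩
      · intro w w' _ _ h
        simp only [Prod.mk.injEq] at h ⊢
        exact ⟨h.1.2, h.1.1⟩
    have B1 : CH (cop2 μ' (cub_G z τ N κ)) (fun w => z (κ ∅ w.1))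
        (fun w => ((fun T => d (κ T w.1)), z0 (κ ∅ w.1))) =
        CH μ' (fun v => z (κ ∅ v)) (fun v => ((fun T => d (κ T v)), z0 (κ ∅ v))) :=
      cub_fst h5 h7 H.nn _ (fun v => z (κ ∅ v)) (fun v => ((fun T => d (κ T v)), z0 (κ ∅ v)))
    have B2 : CH (cop2 μ' (cub_G z τ N κ)) (fun w => (fun T => d (κ T w.2)))
        (fun w => (z (κ ∅ w.1), ((fun T => d (κ T w.1)), z0 (κ ∅ w.1)))) =
        CH μ' (fun v => (fun T => d (κ T v))) (cub_G z τ N κ) := by
      rw [← cub_ind' h1 h2 h5 h7 H.nn (cub_G z τ N κ) (fun v => (fun T => d (κ T v)))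
        (fun v => (fun T => d (κ T v))) (cub_G z τ N κ) (fun _ _ _ _ h => h)]
      apply cub_eqc h2 e.1
      · intro w w' hw hw' h
        simp only [Prod.mk.injEq] at h ⊢
        refine ⟨h.2.1, ?_⟩
        rw [← (e.2.1 w hw).1, ← (e.2.1 w' hw').1]
        have key := hdt w.1 w'.1 (hs1 w hw) (hs1 w' hw') h.2.1
        simp only [cub_G, Prod.mk.injEq]
        refine ⟨h.1, by rw [key ∅], ?_⟩
        funext i
        rw [key {i}, key ∅]
      · intro w w' hw hw' h
        simp only [Prod.mk.injEq] at h ⊢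
        have h' := h.2
        rw [← (e.2.1 w hw).1, ← (e.2.1 w' hw').1] at h'
        simp only [cub_G, Prod.mk.injEq] at h'
        exact ⟨h'.1, h.1, hz0' _ _ (hs1 w hw) (hs1 w' hw') h'.1⟩
    have B3 : CH (cop2 μ' (cub_G z τ N κ)) (fun w => (fun T => d (κ T w.2)))
        (fun w => ((fun T => d (κ T w.1)), z0 (κ ∅ w.1))) ≤
        CH μ' (fun v => (fun T => d (κ T v))) (cub_G z0 τ N κ) := by
      rw [← cub_snd h5 h7 H.nn (cub_G z τ N κ) (fun v => (fun T => d (κ T v))) (cub_G z0 τ N κ)]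
      apply h2.2.1 _ _ _ _ _ _ _ _ e.1
      intro w w' hw hw' h
      simp only [Prod.mk.injEq] at h
      have key := hdt w.1 w'.1 (hs1 w hw) (hs1 w' hw') h.1
      obtain ⟨z1, z2, z3⟩ := hz w hw
      obtain ⟨y1, y2, y3⟩ := hz w' hw'
      simp only [cub_G, Prod.mk.injEq]
      refine ⟨?_, by rw [z2, y2, key ∅], ?_⟩
      · rw [hz0' w.2 w.1 (hs2 w hw) (hs1 w hw) z1, hz0' w'.2 w'.1 (hs2 w' hw') (hs1 w' hw') y1]
        exact h.2
      · funext i
        rw [z3 i, y3 i, key {i}, key ∅]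
    -- on the first level
    have D1 := cub_chain h1 H.nn (fun v => z (κ ∅ v)) (fun v => (fun T => d (κ T v)))
      (cub_G z0 τ N κ)
    have D2 := cub_chain h1 H.nn (fun v => (fun T => d (κ T v))) (fun v => z (κ ∅ v))
      (cub_G z0 τ N κ)
    have D3 : CH μ' (fun v => (z (κ ∅ v), (fun T => d (κ T v)))) (cub_G z0 τ N κ) =
        CH μ' (fun v => ((fun T => d (κ T v)), z (κ ∅ v))) (cub_G z0 τ N κ) := by
      apply cub_eq h2 H.nn
      · intro w w' _ _ h
        exact h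
      · intro w w' _ _ h
        exact h
      · intro w w' _ _ h
        simp only [Prod.mk.injEq] at h ⊢
        exact ⟨h.1.2, h.1.1⟩
      · intro w w' _ _ h
        simp only [Prod.mk.injEq] at h ⊢
        exact ⟨h.1.2, h.1.1⟩
    have D4 : CH μ' (fun v => (fun T => d (κ T v))) (fun v => (z (κ ∅ v), cub_G z0 τ N κ v)) =
        CH μ' (fun v => (fun T => d (κ T v))) (cub_G z τ N κ) := by
      apply cub_eqc h2 H.nn
      · intro v v' _ _ h
        simp only [cub_G, Prod.mk.injEq] at h ⊢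
        exact ⟨h.1, h.2.2⟩
      · intro v v' hv hv' h
        simp only [cub_G, Prod.mk.injEq] at h ⊢
        exact ⟨h.1, hz0' v v' hv hv' h.1, h.2⟩
    have D5 : CH μ' (fun v => z (κ ∅ v)) (cub_G z0 τ N κ) ≤
        CH μ' (fun v => z (κ ∅ v)) (fun v => z0 (κ ∅ v)) := by
      apply h2.2.1 _ _ _ _ _ _ _ _ H.nn
      intro v v' _ _ h
      simp only [cub_G, Prod.mk.injEq] at h
      exact h.1
    have D6 : CH μ' (fun v => z (κ ∅ v)) (fun v => ((fun T => d (κ T v)), cub_G z0 τ N κ v)) =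
        CH μ' (fun v => z (κ ∅ v)) (fun v => ((fun T => d (κ T v)), z0 (κ ∅ v))) := by
      apply cub_eqc h2 H.nn
      · intro v v' _ _ h
        simp only [cub_G, Prod.mk.injEq] at h ⊢
        exact ⟨h.1, h.2.1⟩
      · intro v v' hv hv' h
        simp only [cub_G, Prod.mk.injEq] at h ⊢
        have key := hdt v v' hv hv' h.1
        refine ⟨h.1, h.2, by rw [key ∅], ?_⟩
        funext i
        rw [key {i}, key ∅]
    rw [A1, A2, pow_succ]
    linarith
  · -- steps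
    intro E hE0 hE i
    refine Fin.lastCases ?_ (fun j => ?_) i
    · simp only [cub_k_last, cub_k_empty]
      have hcl := H.cl E hE0 hE
      have b0 : CH (cop2 μ' (cub_G z τ N κ)) (fun w => τ (κ ∅ w.2) - τ (κ ∅ w.1))
          (fun w => (τ (κ ∅ w.1), cub_G z τ N κ w.2)) =
          CH μ' (fun v => τ (κ ∅ v)) (cub_G z τ N κ) := by
        rw [← cub_ind' h1 h2 h5 h7 H.nn (cub_G z τ N κ) (fun v => τ (κ ∅ v))
          (fun v => τ (κ ∅ v)) (cub_G z τ N κ) (fun _ _ _ _ h => h)]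
        apply cub_eq h2 e.1
        · intro w w' _ _ h
          exact h
        · intro w w' _ _ h
          exact h
        · intro w w' _ _ h
          simp only [Prod.mk.injEq] at h
          linarith [h.1, h.2.1]
        · intro w w' _ _ h
          simp only [Prod.mk.injEq] at h
          linarith [h.1, h.2.1]
      have b1 : CH (cop2 μ' (cub_G z τ N κ)) (fun w => τ (κ ∅ w.2) - τ (κ ∅ w.1))
          (fun w => (τ (κ ∅ w.1), cub_G z τ N κ w.2)) ≤
          CH (cop2 μ' (cub_G z τ N κ)) (fun w => τ (κ ∅ w.2) - τ (κ ∅ w.1))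
          (fun w => z (κ ∅ w.1)) := by
        apply h2.2.1 _ _ _ _ _ _ _ _ e.1
        intro w w' hw hw' h
        simp only [Prod.mk.injEq] at h
        have h' := h.2
        rw [← (e.2.1 w hw).1, ← (e.2.1 w' hw').1] at h'
        simp only [cub_G, Prod.mk.injEq] at h'
        exact h'.1
      have hp : (1 : ℝ) ≤ 2 ^ L := one_le_pow₀ (by norm_num)
      have hq : (0 : ℝ) ≤ 2 ^ L * (E + 1) := by positivity
      rw [pow_succ]
      change Real.logb 2 N - (2 ^ L * (E + 1) - 1) ≤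
        CH μ' (fun v => τ (κ ∅ v)) (cub_G z τ N κ) at hcl
      linarith
    · simp only [cub_k_cast, cub_k_empty]
      have hst := H.st E hE0 hE j
      have b0 : CH (cop2 μ' (cub_G z τ N κ)) (fun w => τ (κ {j} w.1) - τ (κ ∅ w.1))
          (fun w => z (κ ∅ w.1)) =
          CH μ' (fun v => τ (κ {j} v) - τ (κ ∅ v)) (fun v => z (κ ∅ v)) :=
        cub_fst h5 h7 H.nn _ (fun v => τ (κ {j} v) - τ (κ ∅ v)) (fun v => z (κ ∅ v))
      have hq : (0 : ℝ) ≤ 2 ^ L * (E + 1) := by positivity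
      rw [b0, pow_succ]
      linarith
  · -- entropy of the height
    intro E hE0 hE
    simp only [cub_k_empty]
    have hcl := H.cl E hE0 hE
    change Real.logb 2 N - (2 ^ L * (E + 1) - 1) ≤
      CH μ' (fun v => τ (κ ∅ v)) (cub_G z τ N κ) at hcl
    have a0 : CH (cop2 μ' (cub_G z τ N κ)) (fun w => τ (κ ∅ w.1))
        (fun w => (z (κ ∅ w.1), τ (κ ∅ w.1) / (N : ℤ),
          fun i => τ (cub_k κ {i} w) - τ (κ ∅ w.1))) =
        CH (cop2 μ' (cub_G z τ N κ)) (fun w => τ (κ ∅ w.1))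
        (fun w => (τ (κ ∅ w.2) - τ (κ ∅ w.1), cub_G z τ N κ w.1)) := by
      apply cub_eqc h2 e.1
      · intro w w' _ _ h
        simp only [cub_G, Prod.mk.injEq] at h ⊢
        obtain ⟨ha, hb, hc⟩ := h
        refine ⟨?_, ha, hb, ?_⟩
        · simpa only [cub_k_last] using congrFun hc (Fin.last L)
        · funext j
          simpa only [cub_k_cast] using congrFun hc j.castSucc
      · intro w w' _ _ h
        simp only [cub_G, Prod.mk.injEq] at h ⊢
        obtain ⟨ha, hb, hc, hd⟩ := h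
        refine ⟨hb, hc, ?_⟩
        funext i
        refine Fin.lastCases ?_ (fun j => ?_) i
        · simpa only [cub_k_last] using ha
        · simpa only [cub_k_cast] using congrFun hd j
    have c1 := cub_chain h1 e.1 (fun w : Ω' × Ω' => τ (κ ∅ w.2) - τ (κ ∅ w.1))
      (fun w => τ (κ ∅ w.1)) (fun w => cub_G z τ N κ w.1)
    have c2 := cub_chain h1 e.1 (fun w : Ω' × Ω' => τ (κ ∅ w.1))
      (fun w => τ (κ ∅ w.2)) (fun w => cub_G z τ N κ w.1)
    have c3 : CH (cop2 μ' (cub_G z τ N κ)) (fun w => (τ (κ ∅ w.2) - τ (κ ∅ w.1), τ (κ ∅ w.1)))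
        (fun w => cub_G z τ N κ w.1) =
        CH (cop2 μ' (cub_G z τ N κ)) (fun w => (τ (κ ∅ w.1), τ (κ ∅ w.2)))
        (fun w => cub_G z τ N κ w.1) := by
      apply cub_eq h2 e.1
      · intro w w' _ _ h
        exact h
      · intro w w' _ _ h
        exact h
      · intro w w' _ _ h
        simp only [Prod.mk.injEq] at h ⊢
        exact ⟨h.1.2, by linarith [h.1.1, h.1.2]⟩
      · intro w w' _ _ h
        simp only [Prod.mk.injEq] at h ⊢
        exact ⟨by linarith [h.1.1, h.1.2], h.1.1⟩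
    have b1 : CH (cop2 μ' (cub_G z τ N κ)) (fun w => τ (κ ∅ w.1))
        (fun w => cub_G z τ N κ w.1) = CH μ' (fun v => τ (κ ∅ v)) (cub_G z τ N κ) :=
      cub_fst h5 h7 H.nn _ (fun v => τ (κ ∅ v)) (cub_G z τ N κ)
    have b2 : CH (cop2 μ' (cub_G z τ N κ)) (fun w => τ (κ ∅ w.2))
        (fun w => (τ (κ ∅ w.1), cub_G z τ N κ w.1)) =
        CH μ' (fun v => τ (κ ∅ v)) (cub_G z τ N κ) := by
      rw [← cub_ind' h1 h2 h5 h7 H.nn (cub_G z τ N κ) (fun v => τ (κ ∅ v))
        (fun v => τ (κ ∅ v)) (cub_G z τ N κ) (fun _ _ _ _ h => h)]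
      apply cub_eqc h2 e.1
      · intro w w' hw hw' h
        simp only [Prod.mk.injEq] at h ⊢
        rw [← (e.2.1 w hw).1, ← (e.2.1 w' hw').1]
        exact h
      · intro w w' hw hw' h
        simp only [Prod.mk.injEq] at h ⊢
        rw [← (e.2.1 w hw).1, ← (e.2.1 w' hw').1] at h
        exact h
    have hmass : mass (cop2 μ' (cub_G z τ N κ)) = 1 := by
      have m1 := (h5.1 Ω' (Ω' × Ω') Unit Unit (cop2 μ' (cub_G z τ N κ)) Prod.fst
        (fun _ => ()) (fun _ => ()) e.1).2.1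
      rw [e.2.2.2.1] at m1
      have m2 := (h5.1 Ω Ω' Unit Unit μ' (κ ∅) (fun _ => ()) (fun _ => ()) H.nn).2.1
      rw [H.pu ∅, hm] at m2
      rw [← m1, ← m2]
    have hN' : (1 : ℝ) ≤ N := by exact_mod_cast hN
    have b3 : CH (cop2 μ' (cub_G z τ N κ)) (fun w => τ (κ ∅ w.2) - τ (κ ∅ w.1))
        (fun w => cub_G z τ N κ w.1) ≤ Real.logb 2 N + 1 := by
      have s1 : CH (cop2 μ' (cub_G z τ N κ)) (fun w => τ (κ ∅ w.2) - τ (κ ∅ w.1))
          (fun w => cub_G z τ N κ w.1) ≤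
          CH (cop2 μ' (cub_G z τ N κ)) (fun w (_ : Fin 1) => τ (κ ∅ w.2) - τ (κ ∅ w.1))
          (fun w => cub_G z τ N κ w.1) := by
        apply h2.1 _ _ _ _ _ _ _ _ e.1
        intro w w' _ _ h
        simp only [Prod.mk.injEq] at h
        exact congrFun h.1 0
      have s2 := h3.2 (Ω' × Ω') _ 1 (cop2 μ' (cub_G z τ N κ))
        (fun w (_ : Fin 1) => τ (κ ∅ w.2) - τ (κ ∅ w.1)) (fun w => cub_G z τ N κ w.1)
        (2 * (N : ℝ) - 1) e.1 (by linarith) (by
          intro w w' hw hw' _ _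
          have hb : ∀ w, cop2 μ' (cub_G z τ N κ) w ≠ 0 →
              |((τ (κ ∅ w.2) - τ (κ ∅ w.1) : ℤ) : ℝ)| ≤ (N : ℝ) - 1 := by
            intro w hw
            have h := (hz w hw).2.1
            have hN0 : (0 : ℤ) < N := by exact_mod_cast hN
            have u1 := Int.emod_add_mul_ediv (τ (κ ∅ w.2)) N
            have u2 := Int.emod_add_mul_ediv (τ (κ ∅ w.1)) N
            have u3 := Int.emod_nonneg (τ (κ ∅ w.2)) hN0.ne'
            have u4 := Int.emod_lt_of_pos (τ (κ ∅ w.2)) hN0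
            have u5 := Int.emod_nonneg (τ (κ ∅ w.1)) hN0.ne'
            have u6 := Int.emod_lt_of_pos (τ (κ ∅ w.1)) hN0
            rw [h] at u1
            have : |τ (κ ∅ w.2) - τ (κ ∅ w.1)| ≤ (N : ℤ) - 1 := by
              rw [abs_le]
              constructor <;> linarith
            have h' : ((|τ (κ ∅ w.2) - τ (κ ∅ w.1)| : ℤ) : ℝ) ≤ (((N : ℤ) - 1 : ℤ) : ℝ) := by
              exact_mod_cast this
            push_cast at h' ⊢
            exact h'
          have t1 := hb w hw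
          have t2 := hb w' hw'
          have := abs_sub ((τ (κ ∅ w.2) - τ (κ ∅ w.1) : ℤ) : ℝ) ((τ (κ ∅ w'.2) - τ (κ ∅ w'.1) : ℤ) : ℝ)
          linarith)
      rw [hmass] at s2
      have s3 : Real.logb 2 (2 * (N : ℝ) - 1 + 1) = Real.logb 2 N + 1 := by
        have : 2 * (N : ℝ) - 1 + 1 = N * 2 := by ring
        rw [this, Real.logb_mul (by positivity) (by norm_num), Real.logb_self_eq_one (by norm_num)]
      rw [s3] at s2
      have : ((1 : ℕ) : ℝ) * (Real.logb 2 N + 1) * 1 = Real.logb 2 N + 1 := by push_cast; ring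
      rw [this] at s2
      exact s1.trans s2
    rw [a0, pow_succ]
    linarith

theorem st_CUB (h1 : ST_E1) (h2 : ST_E2) (h5 : ST_E5) (h7 : ST_E7) (h3 : ST_E3) : ST_CUB := by
  intro L Ω ζ _ μ z τ N hμ hm hN
  have key : ∀ L : ℕ, ∃ (Ω' : Type) (_ : Fintype Ω') (μ' : Ω' → ℝ)
      (κ : Finset (Fin L) → Ω' → Ω), CubH μ z τ N L μ' κ := by
    intro L
    induction L with
    | zero => exact ⟨Ω, inferInstance, μ, _, cub_zero h2 μ z τ N hμ⟩
    | succ L ih =>
      obtain ⟨Ω', i, μ', κ, H⟩ := ih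
      exact ⟨Ω' × Ω', inferInstance, _, _, cub_step h1 h2 h5 h7 h3 μ z τ N L hμ hm hN μ' κ H⟩
  obtain ⟨Ω', i, μ', κ, H⟩ := key L
  exact ⟨Ω', i, μ', κ, H.nn, H.pu, H.su, H.ind, H.mi, H.st⟩

end Pool.Agent.Helper66.HK
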